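import Pool.Agent.H238R2.RatSeries

/-!
A sequence of positive integers satisfying the gluing inequality does not have a rational
generating function.
-/

namespace Pool.Agent.H238R2

open Polynomial PowerSeries

theorem bd_derivative {r r' : ℝ} (hr' : 0 < r') (hrr : r' < r)
    {T : PowerSeries ℝ} (hT : Bd r T) : Bd r' (PowerSeries.derivative ℝ T) := by
  obtain ⟨C, hC⟩ := hT
  have hr : 0 < r := hr'.trans hrr
  have hC0 : 0 ≤ C := le_trans (by positivity) (hC 0)
  -- (n+1) (r'/r)^n is bounded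
  have hq : |r' / r| < 1 := by
    rw [abs_of_pos (by positivity)]; exact (div_lt_one hr).2 hrr
  have hsum : Summable (fun n : ℕ => ‖((n : ℝ) ^ 1 * (r' / r) ^ n : ℝ)‖) :=
    summable_norm_pow_mul_geometric_of_norm_lt_one 1 (by rw [Real.norm_eq_abs]; exact hq)
  obtain ⟨D, hD⟩ : ∃ D : ℝ, ∀ n : ℕ, ((n : ℝ) ^ 1 * (r' / r) ^ n : ℝ) ≤ D := by
    have := hsum.tendsto_atTop_zero.bddAbove_range
    obtain ⟨D, hD⟩ := this
    refine ⟨D, fun n => ?_⟩
    exact (le_abs_self _).trans (hD ⟨n, rfl⟩)
  refine ⟨C * (D / r'), fun n => ?_⟩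
  rw [PowerSeries.coeff_derivative, norm_mul]
  have h1 : ‖((n : ℝ) + 1)‖ = (n + 1 : ℝ) := by
    rw [Real.norm_eq_abs, abs_of_nonneg (by positivity)]
  have h2 := hC (n + 1)
  have h3 := hD (n + 1)
  have hrn : 0 < r ^ (n + 1) := by positivity
  calc ‖PowerSeries.coeff (n + 1) T‖ * ‖((n : ℝ) + 1)‖ * r' ^ n
      = (‖PowerSeries.coeff (n + 1) T‖ * r ^ (n + 1)) *
          ((((n + 1 : ℕ) : ℝ) ^ 1 * (r' / r) ^ (n + 1)) / r') := by
        rw [h1, div_pow, pow_succ r' n]
        push_cast
        field_simp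
    _ ≤ C * (D / r') := by
        apply mul_le_mul h2 _ (by positivity) hC0
        exact div_le_div_of_nonneg_right h3 hr'.le

theorem not_rational_of_ineq (t : ℕ → ℕ) (h1 : ∀ n, 1 ≤ n → 1 ≤ t n)
    (hineq : ∀ K N : ℕ, ∑ m ∈ Finset.range (N + 1), (if K ^ 2 ≤ m then K * t m * t (N - m) else 0) ≤
      2 * ((N + 1) * t (N + 1))) :
    ¬ ∃ P Q : Polynomial ℚ, Q ≠ 0 ∧
      (Q : PowerSeries ℚ) * PowerSeries.mk (fun n => (t n : ℚ)) = (P : PowerSeries ℚ) := by
  classical
  rintro ⟨P0, Q0, hQ0, hPQ0⟩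
  -- reduce to coprime numerator and denominator
  obtain ⟨P, Q, hQ, hPQ, hcop⟩ : ∃ P Q : Polynomial ℚ, Q ≠ 0 ∧
      (Q : PowerSeries ℚ) * PowerSeries.mk (fun n => (t n : ℚ)) = (P : PowerSeries ℚ) ∧
      IsCoprime P Q := by
    have hg : GCDMonoid.gcd P0 Q0 ≠ 0 := gcd_ne_zero_of_right hQ0
    obtain ⟨p, hp⟩ := GCDMonoid.gcd_dvd_left P0 Q0
    obtain ⟨q, hq⟩ := GCDMonoid.gcd_dvd_right P0 Q0
    have hcop := isCoprime_div_gcd_div_gcd (p := P0) hQ0
    have hp' : P0 / GCDMonoid.gcd P0 Q0 = p := by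
      have := mul_div_cancel_left₀ p hg
      rwa [← hp] at this
    have hq' : Q0 / GCDMonoid.gcd P0 Q0 = q := by
      have := mul_div_cancel_left₀ q hg
      rwa [← hq] at this
    rw [hp', hq'] at hcop
    refine ⟨p, q, ?_, ?_, hcop⟩
    · rintro rfl
      rw [mul_zero] at hq
      exact hQ0 hq
    · have hgc : ((GCDMonoid.gcd P0 Q0 : Polynomial ℚ) : PowerSeries ℚ) ≠ 0 := by
        intro h
        exact hg (by exact_mod_cast h)
      apply mul_left_cancel₀ hgc
      rw [← mul_assoc, ← Polynomial.coe_mul, ← Polynomial.coe_mul, ← hp, ← hq]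
      exact hPQ0
  -- complex versions
  set Pc : Polynomial ℂ := P.map (algebraMap ℚ ℂ) with hPc
  set Qc : Polynomial ℂ := Q.map (algebraMap ℚ ℂ) with hQc
  set Tc : PowerSeries ℂ := PowerSeries.mk (fun n => (t n : ℂ)) with hTc
  have hPQc : (Qc : PowerSeries ℂ) * Tc = Pc := by
    have := congrArg (PowerSeries.map (algebraMap ℚ ℂ)) hPQ
    rw [map_mul, ← Polynomial.polynomial_map_coe, ← Polynomial.polynomial_map_coe] at this
    rw [← this]
    congr 1
  have hcopc : IsCoprime Pc Qc := hcop.map (Polynomial.mapRingHom (algebraMap ℚ ℂ))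
  have hQc0 : Qc ≠ 0 := by
    rw [hQc, Ne, Polynomial.map_eq_zero]; exact hQ
  -- real versions
  set Pr : Polynomial ℝ := P.map (algebraMap ℚ ℝ) with hPr
  set Qr : Polynomial ℝ := Q.map (algebraMap ℚ ℝ) with hQr
  set Tr : PowerSeries ℝ := PowerSeries.mk (fun n => (t n : ℝ)) with hTr
  have hPQr : (Qr : PowerSeries ℝ) * Tr = Pr := by
    have := congrArg (PowerSeries.map (algebraMap ℚ ℝ)) hPQ
    rw [map_mul, ← Polynomial.polynomial_map_coe, ← Polynomial.polynomial_map_coe] at this
    rw [← this]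
    congr 1
  have hcopr : IsCoprime Pr Qr := hcop.map (Polynomial.mapRingHom (algebraMap ℚ ℝ))
  -- no common roots
  have hnocommon : ∀ z : ℂ, Qc.eval z = 0 → Pc.eval z ≠ 0 := by
    intro z hz hz'
    obtain ⟨a, b, hab⟩ := hcopc
    have := congrArg (Polynomial.eval z) hab
    simp [hz, hz'] at this
  have hnocommonr : ∀ z : ℝ, Qr.eval z = 0 → Pr.eval z ≠ 0 := by
    intro z hz hz'
    obtain ⟨a, b, hab⟩ := hcopr
    have := congrArg (Polynomial.eval z) hab
    simp [hz, hz'] at this
  -- real and complex evaluation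
  have hcastQ : ∀ x : ℝ, Qc.eval (x : ℂ) = ((Qr.eval x : ℝ) : ℂ) := by
    intro x
    rw [hQc, hQr, Polynomial.eval_map, Polynomial.eval_map]
    have := Polynomial.hom_eval₂ Q (algebraMap ℚ ℝ) Complex.ofRealHom x
    rw [Complex.ofRealHom_eq_coe, Complex.ofRealHom_eq_coe] at this
    rw [this]
    congr 1
  -- zero is not a root of Q
  have hQc00 : Qc.eval 0 ≠ 0 := by
    intro h
    apply hnocommon 0 h
    have := congrArg PowerSeries.constantCoeff hPQc
    rw [map_mul, Polynomial.constantCoeff_coe, Polynomial.constantCoeff_coe,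
      Polynomial.coeff_zero_eq_eval_zero, Polynomial.coeff_zero_eq_eval_zero, h, zero_mul] at this
    exact this.symm
  -- Q has a root
  have hroots : Qc.roots.toFinset.Nonempty := by
    rw [Finset.nonempty_iff_ne_empty]
    intro hempty
    have hdeg : Qc.degree = 0 := by
      by_contra hdeg
      obtain ⟨z, hz⟩ := IsAlgClosed.exists_root Qc hdeg
      have : z ∈ Qc.roots.toFinset := by
        rw [Multiset.mem_toFinset, Polynomial.mem_roots hQc0]; exact hz
      rw [hempty] at this
      simp at this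
    rw [Polynomial.eq_C_of_degree_eq_zero hdeg, Polynomial.coe_C] at hPQc
    have hq0 : Qc.coeff 0 ≠ 0 := by
      rw [Polynomial.coeff_zero_eq_eval_zero]; exact hQc00
    have := congrArg (PowerSeries.coeff (Pc.natDegree + 1)) hPQc
    rw [PowerSeries.coeff_C_mul, Polynomial.coeff_coe,
      Polynomial.coeff_eq_zero_of_natDegree_lt (Nat.lt_succ_self _), hTc, PowerSeries.coeff_mk] at this
    have ht := h1 (Pc.natDegree + 1) (by omega)
    rcases mul_eq_zero.1 this with h | h
    · exact hq0 h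
    · have : t (Pc.natDegree + 1) = 0 := by exact_mod_cast h
      omega
  obtain ⟨ζ, hζ, hmin⟩ := Finset.exists_min_image _ (fun z : ℂ => ‖z‖) hroots
  rw [Multiset.mem_toFinset, Polynomial.mem_roots hQc0] at hζ
  have hζ' : Qc.eval ζ = 0 := hζ
  set ρ : ℝ := ‖ζ‖ with hρ
  have hmin' : ∀ z : ℂ, Qc.eval z = 0 → ρ ≤ ‖z‖ := by
    intro z hz
    apply hmin
    rw [Multiset.mem_toFinset, Polynomial.mem_roots hQc0]; exact hz
  have hρ0 : 0 < ρ := by
    rw [hρ, norm_pos_iff]
    rintro rfl
    exact hQc00 hζ'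
  -- growth
  have hBd : ∀ r : ℝ, 0 < r → r < ρ → Bd r Tc := by
    intro r hr hrρ
    exact bd_of_rational hr hQc0 hPQc (fun z hz => hrρ.trans_le (hmin' z hz))
  have hBdr : ∀ r : ℝ, 0 < r → r < ρ → Bd r Tr := by
    intro r hr hrρ
    obtain ⟨C, hC⟩ := hBd r hr hrρ
    refine ⟨C, fun n => ?_⟩
    have := hC n
    simpa [hTc, hTr] using this
  -- summability
  have hsum : ∀ x : ℝ, 0 ≤ x → x < ρ → Summable (fun n => ‖PowerSeries.coeff n Tr * x ^ n‖) := by
    intro x hx hxρ
    refine summable_of_bd (hBdr ((x + ρ) / 2) (by linarith) (by linarith)) ?_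
    rw [Real.norm_eq_abs, abs_of_nonneg hx]; linarith
  have hsumc : ∀ z : ℂ, ‖z‖ < ρ → Summable (fun n => ‖PowerSeries.coeff n Tc * z ^ n‖) := by
    intro z hz
    exact summable_of_bd (hBd ((‖z‖ + ρ) / 2) (by linarith [norm_nonneg z]) (by linarith))
      (by linarith)
  have hsumd : ∀ x : ℝ, 0 ≤ x → x < ρ →
      Summable (fun n => ‖PowerSeries.coeff n (PowerSeries.derivative ℝ Tr) * x ^ n‖) := by
    intro x hx hxρ
    refine summable_of_bd (bd_derivative (r := (x + 3 * ρ) / 4) (r' := (x + ρ) / 2) (by linarith)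
      (by linarith) (hBdr _ (by linarith) (by linarith))) ?_
    rw [Real.norm_eq_abs, abs_of_nonneg hx]; linarith
  set F : ℝ → ℝ := fun x => ∑' n, PowerSeries.coeff n Tr * x ^ n with hF
  set D : ℝ → ℝ := fun x => ∑' n, PowerSeries.coeff n (PowerSeries.derivative ℝ Tr) * x ^ n with hD
  -- functional equations
  have hQF : ∀ x : ℝ, 0 ≤ x → x < ρ → Qr.eval x * F x = Pr.eval x := by
    intro x hx hxρ
    rw [← tsum_poly Qr x, ← tsum_poly Pr x, hF]
    simp only
    rw [eval_mul (summable_poly Qr x) (hsum x hx hxρ), hPQr]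
  have hQFc : ∀ z : ℂ, ‖z‖ < ρ → Qc.eval z * (∑' n, PowerSeries.coeff n Tc * z ^ n) = Pc.eval z := by
    intro z hz
    rw [← tsum_poly Qc z, ← tsum_poly Pc z, eval_mul (summable_poly Qc z) (hsumc z hz), hPQc]
  have hder : (Qr : PowerSeries ℝ) * PowerSeries.derivative ℝ Tr =
      ((Polynomial.derivative Pr : Polynomial ℝ) : PowerSeries ℝ) -
        ((Polynomial.derivative Qr : Polynomial ℝ) : PowerSeries ℝ) * Tr := by
    have := congrArg (PowerSeries.derivative ℝ) hPQr
    rw [Derivation.leibniz, PowerSeries.derivative_coe, PowerSeries.derivative_coe,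
      smul_eq_mul, smul_eq_mul] at this
    rw [← this]; ring
  have hQD : ∀ x : ℝ, 0 ≤ x → x < ρ → Qr.eval x * D x =
      (Polynomial.derivative Pr).eval x - (Polynomial.derivative Qr).eval x * F x := by
    intro x hx hxρ
    have e1 : Qr.eval x * D x = ∑' n, PowerSeries.coeff n ((Qr : PowerSeries ℝ) *
        PowerSeries.derivative ℝ Tr) * x ^ n := by
      rw [← eval_mul (summable_poly Qr x) (hsumd x hx hxρ), tsum_poly]
    have e2 : (Polynomial.derivative Qr).eval x * F x = ∑' n, PowerSeries.coeff n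
        (((Polynomial.derivative Qr : Polynomial ℝ) : PowerSeries ℝ) * Tr) * x ^ n := by
      rw [← eval_mul (summable_poly _ x) (hsum x hx hxρ), tsum_poly]
    have e3 : (Polynomial.derivative Pr).eval x = ∑' n, PowerSeries.coeff n
        ((Polynomial.derivative Pr : Polynomial ℝ) : PowerSeries ℝ) * x ^ n := by
      rw [tsum_poly]
    have s3 : Summable (fun n => PowerSeries.coeff n
        ((Polynomial.derivative Pr : Polynomial ℝ) : PowerSeries ℝ) * x ^ n) :=
      (summable_poly _ x).of_norm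
    have hs4 : (((Polynomial.derivative Qr : Polynomial ℝ) : PowerSeries ℝ) * Tr) =
        ((Polynomial.derivative Pr : Polynomial ℝ) : PowerSeries ℝ) -
          (Qr : PowerSeries ℝ) * PowerSeries.derivative ℝ Tr := by
      rw [hder]; ring
    have s5 : Summable (fun n => PowerSeries.coeff n ((Qr : PowerSeries ℝ) *
        PowerSeries.derivative ℝ Tr) * x ^ n) := by
      have := (summable_norm_sum_mul_antidiagonal_of_summable_norm (summable_poly Qr x)
        (hsumd x hx hxρ)).of_norm
      refine this.congr (fun n => ?_)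
      rw [PowerSeries.coeff_mul, Finset.sum_mul]
      apply Finset.sum_congr rfl
      rintro ⟨i, j⟩ hij
      rw [Finset.HasAntidiagonal.mem_antidiagonal] at hij
      simp only at hij ⊢
      rw [← hij, pow_add]; ring
    rw [e1, e2, e3, hs4]
    simp only [map_sub, sub_mul]
    rw [Summable.tsum_sub s3 s5]
    ring
  -- nonnegativity
  have hF0 : ∀ x : ℝ, 0 ≤ x → 0 ≤ F x := by
    intro x hx
    apply tsum_nonneg
    intro n
    rw [hTr, PowerSeries.coeff_mk]; positivity
  -- Q has the real root ρ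
  have hQr : Qr.eval ρ = 0 := by
    by_contra hne
    -- Q does not vanish on [0, ρ]
    have hnv : ∀ x ∈ Set.Icc (0 : ℝ) ρ, Qr.eval x ≠ 0 := by
      intro x hx h0
      rcases lt_or_eq_of_le hx.2 with h | h
      · have := hmin' (x : ℂ) (by rw [hcastQ, h0]; simp)
        rw [Complex.norm_real, Real.norm_eq_abs, abs_of_nonneg hx.1] at this
        linarith
      · rw [h] at h0; exact hne h0
    have hcont : ContinuousOn (fun x => Pr.eval x / Qr.eval x) (Set.Icc (0 : ℝ) ρ) :=
      (Pr.continuous.continuousOn).div Qr.continuous.continuousOn hnv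
    obtain ⟨B, hB⟩ := (isCompact_Icc.bddAbove_image hcont)
    have hFB : ∀ x : ℝ, 0 ≤ x → x < ρ → F x ≤ B := by
      intro x hx hxρ
      have h2 := hB ⟨x, ⟨hx, hxρ.le⟩, rfl⟩
      have h3 := hQF x hx hxρ
      have h4 := hnv x ⟨hx, hxρ.le⟩
      simp only at h2
      rw [← h3, mul_div_cancel_left₀ _ h4] at h2
      exact h2
    have hclosed : IsClosed {s : ℝ | ‖Pc.eval ((s : ℂ) * ζ)‖ ≤ B * ‖Qc.eval ((s : ℂ) * ζ)‖} := by
      apply isClosed_le
      · exact (Pc.continuous.comp (by fun_prop)).norm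
      · exact continuous_const.mul (Qc.continuous.comp (by fun_prop)).norm
    have hsub : Set.Ico (0 : ℝ) 1 ⊆
        {s : ℝ | ‖Pc.eval ((s : ℂ) * ζ)‖ ≤ B * ‖Qc.eval ((s : ℂ) * ζ)‖} := by
      intro s hs
      have hnorm : ‖(s : ℂ) * ζ‖ = s * ρ := by
        rw [norm_mul, Complex.norm_real, Real.norm_eq_abs, abs_of_nonneg hs.1]
      have hlt : s * ρ < ρ := by nlinarith [hs.2]
      have hge : 0 ≤ s * ρ := mul_nonneg hs.1 hρ0.le
      have h5 := hQFc ((s : ℂ) * ζ) (by rw [hnorm]; exact hlt)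
      have h6 : ‖∑' n, PowerSeries.coeff n Tc * ((s : ℂ) * ζ) ^ n‖ ≤ F (s * ρ) := by
        refine (norm_tsum_le_tsum_norm (hsumc _ (by rw [hnorm]; exact hlt))).trans ?_
        apply le_of_eq
        apply tsum_congr
        intro n
        rw [norm_mul, norm_pow, hnorm, hTc, hTr, PowerSeries.coeff_mk, PowerSeries.coeff_mk]
        simp
      show ‖Pc.eval ((s : ℂ) * ζ)‖ ≤ B * ‖Qc.eval ((s : ℂ) * ζ)‖
      rw [← h5, norm_mul, mul_comm]
      exact mul_le_mul_of_nonneg_right (h6.trans (hFB _ hge hlt)) (norm_nonneg _)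
    have h7 := closure_minimal hsub hclosed
    rw [closure_Ico (by norm_num)] at h7
    have h8 := h7 (Set.right_mem_Icc.2 (by norm_num : (0 : ℝ) ≤ 1))
    change ‖Pc.eval (((1 : ℝ) : ℂ) * ζ)‖ ≤ B * ‖Qc.eval (((1 : ℝ) : ℂ) * ζ)‖ at h8
    rw [Complex.ofReal_one, one_mul, hζ', norm_zero, mul_zero] at h8
    exact hnocommon ζ hζ' (norm_le_zero_iff.1 h8)
  have hPρ : Pr.eval ρ ≠ 0 := hnocommonr ρ hQr
  -- the inequality for the series
  have hmain : ∀ K : ℕ, (K : ℝ) * (Pr.eval ρ) ^ 2 ≤
      -2 * ((Polynomial.derivative Qr).eval ρ * Pr.eval ρ) := by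
    intro K
    set E : Polynomial ℝ := ∑ m ∈ Finset.range (K ^ 2), Polynomial.C (t m : ℝ) * Polynomial.X ^ m
      with hE
    have hEc : ∀ n, E.coeff n = if n < K ^ 2 then (t n : ℝ) else 0 := by
      intro n
      rw [hE, Polynomial.finsetSum_coeff]
      simp only [Polynomial.coeff_C_mul_X_pow]
      rw [Finset.sum_ite_eq]
      simp only [Finset.mem_range]
    have hser : ∀ x : ℝ, 0 ≤ x → x < ρ → (K : ℝ) * (F x - E.eval x) * F x ≤ 2 * D x := by
      intro x hx hxρ
      set A : PowerSeries ℝ := PowerSeries.mk (fun n => if K ^ 2 ≤ n then (K : ℝ) * t n else 0)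
        with hA
      have hA2 : A = PowerSeries.C (K : ℝ) * (Tr - (E : PowerSeries ℝ)) := by
        ext n
        rw [PowerSeries.coeff_C_mul, map_sub, Polynomial.coeff_coe, hEc, hA, hTr,
          PowerSeries.coeff_mk, PowerSeries.coeff_mk]
        by_cases h : K ^ 2 ≤ n
        · rw [if_pos h, if_neg (by omega)]; ring
        · rw [if_neg h, if_pos (by omega)]; ring
      have hAs : Summable (fun n => ‖PowerSeries.coeff n A * x ^ n‖) := by
        have := ((hsum x hx hxρ)).mul_left (K : ℝ)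
        refine Summable.of_nonneg_of_le (fun n => norm_nonneg _) (fun n => ?_) this
        rw [hA, hTr, PowerSeries.coeff_mk, PowerSeries.coeff_mk]
        split_ifs
        · rw [mul_assoc, norm_mul]; simp
        · simp only [zero_mul, norm_zero]; positivity
      have hAt : ∑' n, PowerSeries.coeff n A * x ^ n = (K : ℝ) * (F x - E.eval x) := by
        rw [← tsum_poly E x, hF]
        simp only
        rw [← Summable.tsum_sub (hsum x hx hxρ).of_norm (summable_poly E x).of_norm, ← tsum_mul_left]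
        apply tsum_congr
        intro n
        rw [hA2, PowerSeries.coeff_C_mul, map_sub]; ring
      rw [← hAt, hF, hD]
      simp only
      rw [eval_mul hAs (hsum x hx hxρ), ← tsum_mul_left]
      have hsAT : Summable (fun n => PowerSeries.coeff n (A * Tr) * x ^ n) := by
        have := (summable_norm_sum_mul_antidiagonal_of_summable_norm hAs (hsum x hx hxρ)).of_norm
        refine this.congr (fun n => ?_)
        rw [PowerSeries.coeff_mul, Finset.sum_mul]
        apply Finset.sum_congr rfl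
        rintro ⟨i, j⟩ hij
        rw [Finset.HasAntidiagonal.mem_antidiagonal] at hij
        simp only at hij ⊢
        rw [← hij, pow_add]; ring
      apply Summable.tsum_le_tsum _ hsAT ((hsumd x hx hxρ).of_norm.mul_left 2)
      intro N
      have hN := hineq K N
      have hcoef : PowerSeries.coeff N (A * Tr) = ((∑ m ∈ Finset.range (N + 1),
          (if K ^ 2 ≤ m then K * t m * t (N - m) else 0) : ℕ) : ℝ) := by
        rw [PowerSeries.coeff_mul, Finset.Nat.sum_antidiagonal_eq_sum_range_succ_mk]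
        push_cast
        apply Finset.sum_congr rfl
        intro m _
        rw [hA, hTr]
        simp only [PowerSeries.coeff_mk]
        split_ifs <;> ring
      rw [hcoef, PowerSeries.coeff_derivative, hTr, PowerSeries.coeff_mk]
      have hN' : ((∑ m ∈ Finset.range (N + 1),
          (if K ^ 2 ≤ m then K * t m * t (N - m) else 0) : ℕ) : ℝ) ≤
            2 * ((N + 1) * t (N + 1)) := by
        exact_mod_cast hN
      calc _ ≤ (2 * ((N + 1) * t (N + 1)) : ℝ) * x ^ N :=
            mul_le_mul_of_nonneg_right hN' (by positivity)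
        _ = _ := by ring
    -- multiply by Q ^ 2 and pass to the limit
    have hclosed : IsClosed {x : ℝ | (K : ℝ) * (Pr.eval x - E.eval x * Qr.eval x) * Pr.eval x ≤
        2 * (Qr.eval x * (Polynomial.derivative Pr).eval x -
          (Polynomial.derivative Qr).eval x * Pr.eval x)} := by
      apply isClosed_le
      · exact (continuous_const.mul (Pr.continuous.sub (E.continuous.mul Qr.continuous))).mul
          Pr.continuous
      · exact continuous_const.mul ((Qr.continuous.mul (Polynomial.derivative Pr).continuous).sub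
          ((Polynomial.derivative Qr).continuous.mul Pr.continuous))
    have hsub : Set.Ico (0 : ℝ) ρ ⊆ {x : ℝ | (K : ℝ) * (Pr.eval x - E.eval x * Qr.eval x) *
        Pr.eval x ≤ 2 * (Qr.eval x * (Polynomial.derivative Pr).eval x -
          (Polynomial.derivative Qr).eval x * Pr.eval x)} := by
      intro x hx
      have a1 := hser x hx.1 hx.2
      have a2 := hQF x hx.1 hx.2
      have a3 := hQD x hx.1 hx.2
      have a4 : (K : ℝ) * (F x - E.eval x) * F x * (Qr.eval x) ^ 2 ≤ 2 * D x * (Qr.eval x) ^ 2 :=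
        mul_le_mul_of_nonneg_right a1 (sq_nonneg _)
      show (K : ℝ) * (Pr.eval x - E.eval x * Qr.eval x) * Pr.eval x ≤
        2 * (Qr.eval x * (Polynomial.derivative Pr).eval x -
          (Polynomial.derivative Qr).eval x * Pr.eval x)
      rw [← a2]
      calc (K : ℝ) * (Qr.eval x * F x - E.eval x * Qr.eval x) * (Qr.eval x * F x)
          = (K : ℝ) * (F x - E.eval x) * F x * (Qr.eval x) ^ 2 := by ring
        _ ≤ 2 * D x * (Qr.eval x) ^ 2 := a4
        _ = 2 * (Qr.eval x * (Qr.eval x * D x)) := by ring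
        _ = _ := by rw [a3]; ring
    have h7 := closure_minimal hsub hclosed
    rw [closure_Ico (by linarith)] at h7
    have h8 := h7 (Set.right_mem_Icc.2 hρ0.le)
    change (K : ℝ) * (Pr.eval ρ - E.eval ρ * Qr.eval ρ) * Pr.eval ρ ≤
        2 * (Qr.eval ρ * (Polynomial.derivative Pr).eval ρ -
          (Polynomial.derivative Qr).eval ρ * Pr.eval ρ) at h8
    rw [hQr] at h8
    linarith
  -- contradiction
  have hpos : 0 < (Pr.eval ρ) ^ 2 := by positivity
  obtain ⟨K, hK⟩ := exists_nat_gt (-2 * ((Polynomial.derivative Qr).eval ρ * Pr.eval ρ) /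
    (Pr.eval ρ) ^ 2)
  rw [div_lt_iff₀ hpos] at hK
  have := hmain K
  linarith

end Pool.Agent.H238R2
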