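import Pool.Agent.H238R2.OminoDefs

/-!
Cut-connectedness of finite sets of cells.
-/

namespace Pool.Agent.H238R2

open Finset

theorem cellGraph_adj {p q : ℤ × ℤ} :
    cellGraph.Adj p q ↔ |p.1 - q.1| + |p.2 - q.2| = 1 := by
  unfold cellGraph
  rw [SimpleGraph.fromRel_adj]
  constructor
  · rintro ⟨_, h | h⟩
    · exact h
    · rw [abs_sub_comm p.1, abs_sub_comm p.2]; exact h
  · intro h
    refine ⟨?_, Or.inl h⟩
    rintro rfl
    simp at h

/-- Cut-connectedness. -/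
def CC (S : Finset (ℤ × ℤ)) : Prop :=
  S.Nonempty ∧ ∀ X ⊆ S, X.Nonempty → X ≠ S → ∃ a ∈ X, ∃ b ∈ S, b ∉ X ∧ cellGraph.Adj a b

theorem cc_of_connected {S : Finset (ℤ × ℤ)}
    (h : (cellGraph.induce (S : Set (ℤ × ℤ))).Connected) : CC S := by
  obtain ⟨hp, hn⟩ := (SimpleGraph.connected_iff _).1 h
  refine ⟨?_, ?_⟩
  · obtain ⟨x⟩ := hn
    exact ⟨x.1, x.2⟩
  · intro X hXS hX hne
    obtain ⟨a, ha⟩ := hX
    obtain ⟨b, hbS, hbX⟩ : ∃ b ∈ S, b ∉ X := by
      by_contra hcon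
      push Not at hcon
      exact hne (Finset.Subset.antisymm hXS hcon)
    obtain ⟨w⟩ := hp ⟨a, hXS ha⟩ ⟨b, hbS⟩
    obtain ⟨d, _, hd1, hd2⟩ := w.exists_boundary_dart {x | x.1 ∈ X} ha hbX
    refine ⟨d.fst.1, hd1, d.snd.1, d.snd.2, hd2, ?_⟩
    exact d.adj

theorem connected_of_cc {S : Finset (ℤ × ℤ)} (h : CC S) :
    (cellGraph.induce (S : Set (ℤ × ℤ))).Connected := by
  classical
  obtain ⟨hne, hcut⟩ := h
  rw [SimpleGraph.connected_iff]
  refine ⟨?_, ?_⟩
  · intro a b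
    set X : Finset (ℤ × ℤ) := S.filter
      (fun c => ∃ hc : c ∈ (S : Set (ℤ × ℤ)), (cellGraph.induce (S : Set (ℤ × ℤ))).Reachable a ⟨c, hc⟩)
      with hX
    by_cases hXS : X = S
    · have hb : b.1 ∈ X := by rw [hXS]; exact b.2
      rw [hX, Finset.mem_filter] at hb
      obtain ⟨_, hc, hr⟩ := hb
      exact hr
    · exfalso
      have ha : a.1 ∈ X := by
        rw [hX, Finset.mem_filter]
        exact ⟨a.2, a.2, SimpleGraph.Reachable.refl _⟩
      obtain ⟨c, hc, d, hdS, hdX, hadj⟩ := hcut X (Finset.filter_subset _ _) ⟨_, ha⟩ hXS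
      apply hdX
      rw [hX, Finset.mem_filter] at hc ⊢
      obtain ⟨hcS, hc', hr⟩ := hc
      refine ⟨hdS, hdS, hr.trans ?_⟩
      apply SimpleGraph.Adj.reachable
      exact hadj
  · obtain ⟨x, hx⟩ := hne
    exact ⟨⟨x, hx⟩⟩

theorem connected_iff_cc {S : Finset (ℤ × ℤ)} :
    (cellGraph.induce (S : Set (ℤ × ℤ))).Connected ↔ CC S :=
  ⟨cc_of_connected, connected_of_cc⟩

/-- Translate of a finite set of cells. -/
def tr (v : ℤ × ℤ) (S : Finset (ℤ × ℤ)) : Finset (ℤ × ℤ) := S.image (fun c => c + v)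

theorem mem_tr {v : ℤ × ℤ} {S : Finset (ℤ × ℤ)} {c : ℤ × ℤ} : c ∈ tr v S ↔ c - v ∈ S := by
  unfold tr
  rw [Finset.mem_image]
  constructor
  · rintro ⟨d, hd, rfl⟩; simpa using hd
  · intro h; exact ⟨c - v, h, by simp⟩

theorem tr_tr (v w : ℤ × ℤ) (S : Finset (ℤ × ℤ)) : tr v (tr w S) = tr (w + v) S := by
  ext c; simp only [mem_tr]; rw [show c - v - w = c - (w + v) by abel]

theorem tr_zero (S : Finset (ℤ × ℤ)) : tr 0 S = S := by
  ext c; simp [mem_tr]

theorem card_tr (v : ℤ × ℤ) (S : Finset (ℤ × ℤ)) : (tr v S).card = S.card := by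
  unfold tr
  exact Finset.card_image_of_injective _ (add_left_injective v)

theorem tr_injective (v : ℤ × ℤ) : Function.Injective (tr v) := by
  intro S S' h
  have := congrArg (tr (-v)) h
  simpa [tr_tr, tr_zero] using this

theorem adj_sub {p q v : ℤ × ℤ} : cellGraph.Adj (p - v) (q - v) ↔ cellGraph.Adj p q := by
  simp [cellGraph_adj]

theorem adj_add {p q v : ℤ × ℤ} : cellGraph.Adj (p + v) (q + v) ↔ cellGraph.Adj p q := by
  simp [cellGraph_adj]

theorem cc_tr {v : ℤ × ℤ} {S : Finset (ℤ × ℤ)} (h : CC S) : CC (tr v S) := by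
  obtain ⟨⟨x, hx⟩, hcut⟩ := h
  refine ⟨⟨x + v, mem_tr.2 (by simpa using hx)⟩, ?_⟩
  intro X hXS hX hne
  obtain ⟨y, hy⟩ := hX
  obtain ⟨a, ha, b, hbS, hbX, hab⟩ := hcut (tr (-v) X) (by
      intro c hc
      rw [mem_tr] at hc
      have := hXS hc
      rw [mem_tr] at this
      simpa using this) ⟨y - v, mem_tr.2 (by simpa using hy)⟩ (by
      intro hEq
      apply hne
      rw [← hEq, tr_tr]; simp [tr_zero])
  rw [mem_tr] at ha hbX
  refine ⟨a - -v, ha, b + v, mem_tr.2 (by simpa using hbS), by simpa using hbX, ?_⟩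
  rw [sub_neg_eq_add, adj_add]
  exact hab

theorem cc_tr_iff {v : ℤ × ℤ} {S : Finset (ℤ × ℤ)} : CC (tr v S) ↔ CC S := by
  refine ⟨fun h => ?_, cc_tr⟩
  have := cc_tr (v := -v) h
  rwa [tr_tr, add_neg_cancel, tr_zero] at this

theorem cc_singleton (c : ℤ × ℤ) : CC {c} := by
  refine ⟨⟨c, by simp⟩, ?_⟩
  intro X hX hne hXc
  exfalso
  rcases Finset.subset_singleton_iff.1 hX with h | h
  · exact hne.ne_empty h
  · exact hXc h

theorem cc_union {A B : Finset (ℤ × ℤ)} (hA : CC A) (hB : CC B)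
    (hAB : ∃ a ∈ A, ∃ b ∈ B, cellGraph.Adj a b) : CC (A ∪ B) := by
  classical
  obtain ⟨a0, ha0, b0, hb0, hadj⟩ := hAB
  refine ⟨⟨a0, Finset.mem_union_left _ ha0⟩, ?_⟩
  intro X hX hne hXAB
  -- case analysis
  by_cases h1 : (X ∩ A).Nonempty ∧ X ∩ A ≠ A
  · obtain ⟨a, ha, b, hb, hbX, hab⟩ := hA.2 (X ∩ A) Finset.inter_subset_right h1.1 h1.2
    refine ⟨a, (Finset.mem_inter.1 ha).1, b, Finset.mem_union_left _ hb, ?_, hab⟩
    intro hbX'
    exact hbX (Finset.mem_inter.2 ⟨hbX', hb⟩)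
  by_cases h2 : (X ∩ B).Nonempty ∧ X ∩ B ≠ B
  · obtain ⟨a, ha, b, hb, hbX, hab⟩ := hB.2 (X ∩ B) Finset.inter_subset_right h2.1 h2.2
    refine ⟨a, (Finset.mem_inter.1 ha).1, b, Finset.mem_union_right _ hb, ?_, hab⟩
    intro hbX'
    exact hbX (Finset.mem_inter.2 ⟨hbX', hb⟩)
  -- now X ∩ A is empty or A, same for B
  by_cases hA' : (X ∩ A).Nonempty
  · have hAeq : X ∩ A = A := by
      by_contra hcon; exact h1 ⟨hA', hcon⟩
    by_cases hB' : (X ∩ B).Nonempty
    · have hBeq : X ∩ B = B := by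
        by_contra hcon; exact h2 ⟨hB', hcon⟩
      exfalso
      apply hXAB
      apply Finset.Subset.antisymm hX
      intro c hc
      rcases Finset.mem_union.1 hc with hc | hc
      · rw [← hAeq] at hc; exact (Finset.mem_inter.1 hc).1
      · rw [← hBeq] at hc; exact (Finset.mem_inter.1 hc).1
    · refine ⟨a0, ?_, b0, Finset.mem_union_right _ hb0, ?_, hadj⟩
      · rw [← hAeq] at ha0; exact (Finset.mem_inter.1 ha0).1
      · intro hb; exact hB' ⟨b0, Finset.mem_inter.2 ⟨hb, hb0⟩⟩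
  · by_cases hB' : (X ∩ B).Nonempty
    · have hBeq : X ∩ B = B := by
        by_contra hcon; exact h2 ⟨hB', hcon⟩
      refine ⟨b0, ?_, a0, Finset.mem_union_left _ ha0, ?_, hadj.symm⟩
      · rw [← hBeq] at hb0; exact (Finset.mem_inter.1 hb0).1
      · intro ha; exact hA' ⟨a0, Finset.mem_inter.2 ⟨ha, ha0⟩⟩
    · exfalso
      obtain ⟨x, hx⟩ := hne
      rcases Finset.mem_union.1 (hX hx) with hc | hc
      · exact hA' ⟨x, Finset.mem_inter.2 ⟨hx, hc⟩⟩
      · exact hB' ⟨x, Finset.mem_inter.2 ⟨hx, hc⟩⟩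

/-- `X` and `Y` are disjoint and non-adjacent. -/
def Sep (X Y : Finset (ℤ × ℤ)) : Prop :=
  ∀ x ∈ X, ∀ y ∈ Y, x ≠ y ∧ ¬ cellGraph.Adj x y

theorem Sep.symm {X Y : Finset (ℤ × ℤ)} (h : Sep X Y) : Sep Y X := by
  intro y hy x hx
  exact ⟨(h x hx y hy).1.symm, fun hadj => (h x hx y hy).2 hadj.symm⟩

theorem Sep.disjoint {X Y : Finset (ℤ × ℤ)} (h : Sep X Y) : Disjoint X Y := by
  rw [Finset.disjoint_left]
  intro x hx hy
  exact (h x hx x hy).1 rfl

theorem sub_of_sep {X Y Z : Finset (ℤ × ℤ)} (hXY : Sep X Y) (hZ : CC Z) (hZXY : Z ⊆ X ∪ Y) :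
    Z ⊆ X ∨ Z ⊆ Y := by
  classical
  by_cases h1 : (Z ∩ X).Nonempty
  · by_cases h2 : Z ∩ X = Z
    · left
      intro z hz
      rw [← h2] at hz; exact (Finset.mem_inter.1 hz).2
    · exfalso
      obtain ⟨a, ha, b, hb, hbX, hab⟩ := hZ.2 (Z ∩ X) Finset.inter_subset_left h1 h2
      have hbY : b ∈ Y := by
        rcases Finset.mem_union.1 (hZXY hb) with h | h
        · exact absurd (Finset.mem_inter.2 ⟨hb, h⟩) hbX
        · exact h
      exact (hXY a (Finset.mem_inter.1 ha).2 b hbY).2 hab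
  · right
    intro z hz
    rcases Finset.mem_union.1 (hZXY hz) with h | h
    · exact absurd ⟨z, Finset.mem_inter.2 ⟨hz, h⟩⟩ h1
    · exact h

theorem comp_unique {X Y X' Y' : Finset (ℤ × ℤ)} (hXY : Sep X Y) (hXY' : Sep X' Y')
    (hX : CC X) (hX' : CC X') (hY' : CC Y') (h : X ∪ Y = X' ∪ Y') :
    (X' = X ∧ Y' = Y) ∨ (X' = Y ∧ Y' = X) := by
  classical
  have hXs : X ⊆ X' ∪ Y' := by rw [← h]; exact Finset.subset_union_left
  have hXs' : X' ⊆ X ∪ Y := by rw [h]; exact Finset.subset_union_left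
  have hYs' : Y' ⊆ X ∪ Y := by rw [h]; exact Finset.subset_union_right
  have d := hXY.disjoint
  have d' := hXY'.disjoint
  have key : ∀ {A B A' B' : Finset (ℤ × ℤ)}, Disjoint A B → Disjoint A' B' → A ∪ B = A' ∪ B' →
      A' = A → B' = B := by
    intro A B A' B' hd hd' hu hAA
    subst hAA
    rw [Finset.disjoint_left] at hd hd'
    ext c
    constructor
    · intro hc
      have : c ∈ A' ∪ B := by rw [hu]; exact Finset.mem_union_right _ hc
      rcases Finset.mem_union.1 this with h' | h'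
      · exact absurd hc (hd' h')
      · exact h'
    · intro hc
      have : c ∈ A' ∪ B' := by rw [← hu]; exact Finset.mem_union_right _ hc
      rcases Finset.mem_union.1 this with h' | h'
      · exact absurd hc (hd h')
      · exact h'
  obtain ⟨x, hx⟩ := hX.1
  obtain ⟨x', hx'⟩ := hX'.1
  rcases sub_of_sep hXY hX' hXs' with h1 | h1
  · rcases sub_of_sep hXY' hX hXs with h3 | h3
    · left
      have hXX : X' = X := Finset.Subset.antisymm h1 h3
      exact ⟨hXX, key d d' h hXX⟩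
    · exact absurd (h3 (h1 hx')) (Finset.disjoint_left.1 d' hx')
  · rcases sub_of_sep hXY' hX hXs with h3 | h3
    · exact absurd (h1 (h3 hx)) (Finset.disjoint_left.1 d hx)
    · right
      rcases sub_of_sep hXY hY' hYs' with h2 | h2
      · have hYX : Y' = X := Finset.Subset.antisymm h2 h3
        refine ⟨?_, hYX⟩
        exact key d d'.symm (by rw [h, Finset.union_comm]) hYX
      · exact absurd (h2 (h3 hx)) (Finset.disjoint_left.1 d hx)

end Pool.Agent.H238R2
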