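import Pool.Agent.H238R2.OminoBasic

/-!
Normalised representatives, finiteness, rooted counts.
-/

namespace Pool.Agent.H238R2

open Finset

/-- Normalised: the lowest-leftmost cell is the origin. -/
def Norm (S : Finset (ℤ × ℤ)) : Prop :=
  (0 : ℤ × ℤ) ∈ S ∧ ∀ p ∈ S, 0 < p.2 ∨ (p.2 = 0 ∧ 0 ≤ p.1)

theorem norm_unique {S : Finset (ℤ × ℤ)} {v : ℤ × ℤ} (h : Norm S) (h' : Norm (tr v S)) :
    v = 0 := by
  have h1 := h'.2 v (by rw [mem_tr]; simpa using h.1)
  have h2 := h.2 (-v) (by have := h'.1; rw [mem_tr] at this; simpa using this)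
  simp only [Prod.fst_neg, Prod.snd_neg] at h2
  ext
  · simp only [Prod.fst_zero]; omega
  · simp only [Prod.snd_zero]; omega

theorem exists_norm {S : Finset (ℤ × ℤ)} (h : S.Nonempty) : ∃ v ∈ S, Norm (tr (-v) S) := by
  obtain ⟨x, hx, hmin⟩ := Finset.exists_min_image S (fun p => toLex (p.2, p.1)) h
  refine ⟨x, hx, ?_, ?_⟩
  · rw [mem_tr]; simpa using hx
  · intro p hp
    rw [mem_tr] at hp
    have := hmin _ hp
    rw [Prod.Lex.toLex_le_toLex] at this
    simp only [sub_neg_eq_add, Prod.snd_add, Prod.fst_add] at this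
    omega

/-- The box of radius `n`. -/
noncomputable def box (n : ℕ) : Finset (ℤ × ℤ) := Finset.Icc (-(n : ℤ)) n ×ˢ Finset.Icc (-(n : ℤ)) n

theorem mem_box {n : ℕ} {p : ℤ × ℤ} : p ∈ box n ↔ (-(n : ℤ) ≤ p.1 ∧ p.1 ≤ n) ∧
    (-(n : ℤ) ≤ p.2 ∧ p.2 ≤ n) := by
  unfold box; rw [Finset.mem_product, Finset.mem_Icc, Finset.mem_Icc]

/-- A general bound: an integer-valued function changing by at most one along edges takes, on a
connected set of `n` cells containing the origin, values of absolute value at most `n`, if it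
vanishes at the origin. -/
theorem coord_bound {S : Finset (ℤ × ℤ)} (h : CC S) (h0 : (0 : ℤ × ℤ) ∈ S) (f : ℤ × ℤ → ℤ)
    (hf : ∀ p q, cellGraph.Adj p q → |f p - f q| ≤ 1) (hf0 : f 0 = 0) {p : ℤ × ℤ} (hp : p ∈ S) :
    f p ≤ S.card := by
  classical
  -- all values between 0 and f p are attained
  have key : ∀ j : ℤ, 0 ≤ j → j ≤ f p → ∃ q ∈ S, f q = j := by
    intro j hj0 hjp
    by_contra hcon
    push Not at hcon
    have hj0' : j ≠ 0 := by
      rintro rfl; exact hcon 0 h0 hf0
    have hjp' : j ≠ f p := by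
      rintro rfl; exact hcon p hp rfl
    obtain ⟨a, ha, b, hbS, hbX, hab⟩ := h.2 (S.filter (fun q => f q < j)) (Finset.filter_subset _ _)
      ⟨0, by rw [Finset.mem_filter]; exact ⟨h0, by omega⟩⟩ (by
        intro hEq
        have : p ∈ S.filter (fun q => f q < j) := by rw [hEq]; exact hp
        rw [Finset.mem_filter] at this
        omega)
    rw [Finset.mem_filter] at ha
    have hb : ¬ f b < j := fun hlt => hbX (Finset.mem_filter.2 ⟨hbS, hlt⟩)
    have h1 := hf a b hab
    rw [abs_le] at h1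
    have h2 := hcon b hbS
    have h3 := hcon a ha.1
    omega
  by_cases hneg : f p < 0
  · have : (0 : ℤ) ≤ S.card := by positivity
    omega
  push Not at hneg
  have hsub : (Finset.Icc 0 (f p)) ⊆ S.image f := by
    intro j hj
    rw [Finset.mem_Icc] at hj
    obtain ⟨q, hq, rfl⟩ := key j hj.1 hj.2
    exact Finset.mem_image_of_mem f hq
  have h1 := (Finset.card_le_card hsub).trans Finset.card_image_le
  rw [Int.card_Icc] at h1
  omega

theorem subset_box {S : Finset (ℤ × ℤ)} (h : CC S) (h0 : (0 : ℤ × ℤ) ∈ S) : S ⊆ box S.card := by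
  intro p hp
  rw [mem_box]
  have habs : ∀ p q : ℤ × ℤ, cellGraph.Adj p q → |p.1 - q.1| ≤ 1 ∧ |p.2 - q.2| ≤ 1 := by
    intro p q hpq
    rw [cellGraph_adj] at hpq
    have h1 := abs_nonneg (p.1 - q.1)
    have h2 := abs_nonneg (p.2 - q.2)
    constructor <;> omega
  have h1 := coord_bound h h0 (fun p => p.1) (fun p q hpq => (habs p q hpq).1) rfl hp
  have h2 := coord_bound h h0 (fun p => p.2) (fun p q hpq => (habs p q hpq).2) rfl hp
  have h3 := coord_bound h h0 (fun p => -p.1) (fun p q hpq => by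
    have := (habs p q hpq).1
    rw [abs_le] at this ⊢
    constructor <;> linarith [this.1, this.2]) (by simp) hp
  have h4 := coord_bound h h0 (fun p => -p.2) (fun p q hpq => by
    have := (habs p q hpq).2
    rw [abs_le] at this ⊢
    constructor <;> linarith [this.1, this.2]) (by simp) hp
  refine ⟨⟨by linarith, by linarith⟩, ⟨by linarith, by linarith⟩⟩

open Classical in
/-- Connected sets of `n` cells containing the origin. -/
noncomputable def rooted (n : ℕ) : Finset (Finset (ℤ × ℤ)) :=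
  ((box n).powersetCard n).filter (fun S => (0 : ℤ × ℤ) ∈ S ∧ CC S)

theorem mem_rooted {n : ℕ} {S : Finset (ℤ × ℤ)} :
    S ∈ rooted n ↔ S.card = n ∧ (0 : ℤ × ℤ) ∈ S ∧ CC S := by
  classical
  unfold rooted
  rw [Finset.mem_filter, Finset.mem_powersetCard]
  constructor
  · rintro ⟨⟨_, h1⟩, h2, h3⟩; exact ⟨h1, h2, h3⟩
  · rintro ⟨h1, h2, h3⟩
    refine ⟨⟨?_, h1⟩, h2, h3⟩
    rw [← h1]; exact subset_box h3 h2

open Classical in
/-- Normalised connected sets of `n` cells. -/
noncomputable def fixedSet (n : ℕ) : Finset (Finset (ℤ × ℤ)) :=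
  (rooted n).filter Norm

theorem mem_fixedSet {n : ℕ} {S : Finset (ℤ × ℤ)} :
    S ∈ fixedSet n ↔ S.card = n ∧ CC S ∧ Norm S := by
  classical
  unfold fixedSet
  rw [Finset.mem_filter, mem_rooted]
  constructor
  · rintro ⟨⟨h1, _, h3⟩, h4⟩; exact ⟨h1, h3, h4⟩
  · rintro ⟨h1, h3, h4⟩; exact ⟨⟨h1, h4.1, h3⟩, h4⟩

/-- The class of a normalised polyomino. -/
noncomputable def toClass (n : ℕ) (S : {S // S ∈ fixedSet n}) : Quotient (transEquiv n) :=
  Quotient.mk _ ⟨S.1, (mem_fixedSet.1 S.2).1, connected_of_cc (mem_fixedSet.1 S.2).2.1⟩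

theorem toClass_bijective (n : ℕ) : Function.Bijective (toClass n) := by
  constructor
  · intro S S' h
    unfold toClass at h
    obtain ⟨v, hv⟩ := Quotient.exact h
    change S'.1 = tr v S.1 at hv
    have h1 := (mem_fixedSet.1 S.2).2.2
    have h2 := (mem_fixedSet.1 S'.2).2.2
    rw [hv] at h2
    have hv0 := norm_unique h1 h2
    subst hv0
    rw [tr_zero] at hv
    exact Subtype.ext hv.symm
  · intro q
    induction q using Quotient.inductionOn with
    | h S =>
      obtain ⟨S, hS, hc⟩ := S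
      have hcc := cc_of_connected hc
      obtain ⟨v, _, hv⟩ := exists_norm hcc.1
      refine ⟨⟨tr (-v) S, mem_fixedSet.2 ⟨by rw [card_tr, hS], cc_tr hcc, hv⟩⟩, ?_⟩
      apply Quotient.sound
      refine ⟨v, ?_⟩
      change S = tr v (tr (-v) S)
      rw [tr_tr, neg_add_cancel, tr_zero]

theorem fixedCount_eq (n : ℕ) : fixedCount n = (fixedSet n).card := by
  unfold fixedCount
  rw [← Nat.card_eq_of_bijective _ (toClass_bijective n), Nat.card_eq_fintype_card,
    Fintype.card_coe]

theorem rooted_card_le (n : ℕ) : (rooted n).card ≤ n * (fixedSet n).card := by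
  classical
  -- map each rooted set to (normal form, position of the root)
  have hex : ∀ S ∈ rooted n, ∃ v ∈ S, Norm (tr (-v) S) := fun S hS =>
    exists_norm (mem_rooted.1 hS).2.2.1
  choose! v hvS hv using hex
  have hcard : (rooted n).card ≤ ((fixedSet n).sigma (fun S => S)).card := by
    apply Finset.card_le_card_of_injOn (fun S => (⟨tr (-v S) S, -v S⟩ : (_ : Finset (ℤ × ℤ)) × (ℤ × ℤ)))
    · intro S hS
      have hS' := mem_rooted.1 hS
      simp only [Finset.coe_sigma, Set.mem_sigma_iff, Finset.mem_coe]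
      refine ⟨mem_fixedSet.2 ⟨by rw [card_tr]; exact hS'.1, cc_tr hS'.2.2, hv S hS⟩, ?_⟩
      rw [mem_tr]; simpa using hS'.2.1
    · intro S hS S' hS' h
      simp only [Sigma.mk.injEq] at h
      have h1 := h.1
      have h2 := eq_of_heq h.2
      rw [h2] at h1
      exact tr_injective _ h1
  refine hcard.trans ?_
  rw [Finset.card_sigma]
  rw [Finset.sum_const_nat (m := n)]
  · rw [mul_comm]
  · intro S hS
    exact (mem_fixedSet.1 hS).1

end Pool.Agent.H238R2
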