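import Mathlib

/-!
Basic definitions: cells of the square lattice, n-ominoes, fixed n-ominoes, their number.
-/

namespace Pool.Agent.H238R2

/-- The adjacency graph of the cells of the square lattice. The cell `[a, a+1] x [b, b+1]` is
represented by the point `(a, b)`; two cells are adjacent exactly when they share an edge. -/
def cellGraph : SimpleGraph (ℤ × ℤ) :=
  SimpleGraph.fromRel (fun p q : ℤ × ℤ => |p.1 - q.1| + |p.2 - q.2| = 1)

/-- An `n`-omino: a set of `n` cells which is (nonempty and) connected under edge adjacency. -/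
def IsOmino (n : ℕ) (S : Finset (ℤ × ℤ)) : Prop :=
  S.card = n ∧ (cellGraph.induce (S : Set (ℤ × ℤ))).Connected

/-- The type of all `n`-ominoes. -/
def Omino (n : ℕ) : Type := {S : Finset (ℤ × ℤ) // IsOmino n S}

/-- Two `n`-ominoes are equivalent when one is a translate of the other by an integer vector. -/
def transEquiv (n : ℕ) : Setoid (Omino n) where
  r S S' := ∃ v : ℤ × ℤ, S'.1 = S.1.image (fun c => c + v)
  iseqv := by
    refine ⟨fun S => ⟨0, by simp⟩, ?_, ?_⟩
    · rintro S S' ⟨v, hv⟩
      refine ⟨-v, ?_⟩
      rw [hv, Finset.image_image]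
      simp [Function.comp_def]
    · rintro S S' S'' ⟨v, hv⟩ ⟨w, hw⟩
      refine ⟨v + w, ?_⟩
      rw [hw, hv, Finset.image_image]
      simp [Function.comp_def, add_assoc]

/-- A fixed `n`-omino is an `n`-omino up to translation; `fixedCount n` is the number `t(n)` of
fixed `n`-ominoes. -/
noncomputable def fixedCount (n : ℕ) : ℕ := Nat.card (Quotient (transEquiv n))

end Pool.Agent.H238R2
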