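import Pool.Agent.H238R2.OminoCount

/-!
Gluing two polyominoes through a cut cell, in at least `K` relative positions when one of them has
at least `K ^ 2` cells; the resulting inequality for the numbers of fixed polyominoes.
-/

namespace Pool.Agent.H238R2

open Finset

/-- `B + v` is disjoint from and not adjacent to `A`, and the cell `c` is adjacent to both. -/
def Good (A B : Finset (ℤ × ℤ)) (v c : ℤ × ℤ) : Prop :=
  Sep A (tr v B) ∧ c ∉ A ∧ c ∉ tr v B ∧ (∃ a ∈ A, cellGraph.Adj c a) ∧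
    ∃ b ∈ tr v B, cellGraph.Adj c b

theorem exists_snd_bound (A : Finset (ℤ × ℤ)) : ∃ M : ℤ, ∀ a ∈ A, |a.2| ≤ M := by
  obtain ⟨M, hM⟩ := (A.image (fun a => |a.2|)).exists_le
  exact ⟨M, fun a ha => hM _ (Finset.mem_image_of_mem _ ha)⟩

theorem drop {A B : Finset (ℤ × ℤ)} (hB : (0 : ℤ × ℤ) ∈ B) {i y : ℤ} (h : (i, y) ∈ A) :
    ∃ s : ℤ, ∃ c, Good A B (i, s) c := by
  obtain ⟨MA, hMA⟩ := exists_snd_bound A
  obtain ⟨MB, hMB⟩ := exists_snd_bound B
  obtain ⟨s, hs, hmax⟩ := Int.exists_greatest_of_bdd (P := fun s : ℤ => ¬ Sep A (tr (i, s) B))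
    ⟨MA + MB + 1, by
      intro s hs
      unfold Sep at hs
      push Not at hs
      obtain ⟨a, ha, b, hb, hab⟩ := hs
      rw [mem_tr] at hb
      have h1 := hMA a ha
      have h2 := hMB _ hb
      simp only [Prod.snd_sub] at h2
      rw [abs_le] at h1 h2
      by_cases hEq : a = b
      · subst hEq; linarith [h1.1, h1.2, h2.1, h2.2]
      · have h3 := hab hEq
        rw [cellGraph_adj] at h3
        have h4 := abs_nonneg (a.1 - b.1)
        have h5 : |a.2 - b.2| ≤ 1 := by linarith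
        rw [abs_le] at h5
        linarith [h1.1, h1.2, h2.1, h2.2, h5.1, h5.2]⟩
    ⟨y, by
      intro hs
      exact (hs (i, y) h (i, y) (by rw [mem_tr]; simpa using hB)).1 rfl⟩
  have hsep : Sep A (tr (i, s + 1) B) := by
    by_contra hcon
    have := hmax _ hcon
    omega
  unfold Sep at hs
  push Not at hs
  obtain ⟨a, ha, b, hb, hab⟩ := hs
  have hb' : b + (0, 1) ∈ tr (i, s + 1) B := by
    rw [mem_tr] at hb ⊢
    have : b + (0, 1) - (i, s + 1) = b - (i, s) := by
      ext <;> simp; 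
    rw [this]; exact hb
  have hbb : cellGraph.Adj b (b + (0, 1)) := by
    rw [cellGraph_adj]; simp
  have hne : a ≠ b := by
    rintro rfl
    exact (hsep a ha _ hb').2 hbb
  have hadj := hab hne
  refine ⟨s + 1, b, hsep, ?_, ?_, ⟨a, ha, hadj.symm⟩, ⟨_, hb', hbb⟩⟩
  · intro hbA
    exact (hsep b hbA _ hb').2 hbb
  · intro hbB
    exact (hsep a ha b hbB).2 hadj

/-- Swap of coordinates. -/
def sw (S : Finset (ℤ × ℤ)) : Finset (ℤ × ℤ) := S.image Prod.swap

theorem mem_sw {S : Finset (ℤ × ℤ)} {c : ℤ × ℤ} : c ∈ sw S ↔ c.swap ∈ S := by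
  unfold sw
  rw [Finset.mem_image]
  constructor
  · rintro ⟨d, hd, rfl⟩; simpa using hd
  · intro h; exact ⟨c.swap, h, by simp⟩

theorem adj_swap {p q : ℤ × ℤ} : cellGraph.Adj p.swap q.swap ↔ cellGraph.Adj p q := by
  simp [cellGraph_adj, add_comm]

theorem tr_sw {v : ℤ × ℤ} {S : Finset (ℤ × ℤ)} : tr v.swap (sw S) = sw (tr v S) := by
  ext c
  rw [mem_tr, mem_sw, mem_sw, mem_tr]
  rfl

theorem good_sw {A B : Finset (ℤ × ℤ)} {v c : ℤ × ℤ} (h : Good (sw A) (sw B) v.swap c.swap) :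
    Good A B v c := by
  obtain ⟨h1, h2, h3, ⟨a, ha, ha'⟩, ⟨b, hb, hb'⟩⟩ := h
  rw [tr_sw] at h1 h3 hb
  refine ⟨?_, ?_, ?_, ⟨a.swap, mem_sw.1 ha, ?_⟩, ⟨b.swap, mem_sw.1 hb, ?_⟩⟩
  · intro x hx y hy
    have := h1 x.swap (mem_sw.2 (by simpa using hx)) y.swap (mem_sw.2 (by simpa using hy))
    rw [adj_swap] at this
    exact ⟨fun hxy => this.1 (by rw [hxy]), this.2⟩
  · intro hc; exact h2 (mem_sw.2 (by simpa using hc))
  · intro hc; exact h3 (mem_sw.2 (by simpa using hc))
  · rw [← adj_swap]; simpa using ha'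
  · rw [← adj_swap]; simpa using hb'

theorem drop' {A B : Finset (ℤ × ℤ)} (hB : (0 : ℤ × ℤ) ∈ B) {x j : ℤ} (h : (x, j) ∈ A) :
    ∃ s : ℤ, ∃ c, Good A B (s, j) c := by
  obtain ⟨s, c, hc⟩ := drop (A := sw A) (B := sw B) (i := j) (y := x)
    (mem_sw.2 (by simpa using hB)) (mem_sw.2 (by simpa using h))
  exact ⟨s, c.swap, good_sw (by simpa using hc)⟩

/-- Many relative positions. -/
theorem many_positions {A B : Finset (ℤ × ℤ)} (hB : (0 : ℤ × ℤ) ∈ B) {K : ℕ}
    (hK : K ^ 2 ≤ A.card) :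
    ∃ v : Fin K → ℤ × ℤ, Function.Injective v ∧ ∀ k, ∃ c, Good A B (v k) c := by
  classical
  have hsub : A ⊆ (A.image Prod.fst) ×ˢ (A.image Prod.snd) := by
    intro a ha
    rw [Finset.mem_product]
    exact ⟨Finset.mem_image_of_mem _ ha, Finset.mem_image_of_mem _ ha⟩
  have hle := Finset.card_le_card hsub
  rw [Finset.card_product] at hle
  have hor : K ≤ (A.image Prod.fst).card ∨ K ≤ (A.image Prod.snd).card := by
    by_contra hcon
    push Not at hcon
    have : (A.image Prod.fst).card * (A.image Prod.snd).card < K * K :=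
      Nat.mul_lt_mul'' hcon.1 hcon.2
    rw [← pow_two] at this
    omega
  rcases hor with h | h
  · have : Fintype.card (Fin K) ≤ Fintype.card (A.image Prod.fst : Finset ℤ) := by
      rw [Fintype.card_fin, Fintype.card_coe]; exact h
    obtain ⟨e⟩ := Function.Embedding.nonempty_of_card_le this
    have hex : ∀ k : Fin K, ∃ s : ℤ, ∃ c, Good A B ((e k).1, s) c := by
      intro k
      obtain ⟨a, ha, hak⟩ := Finset.mem_image.1 (e k).2
      exact drop hB (i := (e k).1) (y := a.2) (by rw [← hak]; exact ha)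
    choose s hs using hex
    refine ⟨fun k => ((e k).1, s k), ?_, hs⟩
    intro k k' hkk
    simp only [Prod.mk.injEq] at hkk
    exact e.injective (Subtype.ext hkk.1)
  · have : Fintype.card (Fin K) ≤ Fintype.card (A.image Prod.snd : Finset ℤ) := by
      rw [Fintype.card_fin, Fintype.card_coe]; exact h
    obtain ⟨e⟩ := Function.Embedding.nonempty_of_card_le this
    have hex : ∀ k : Fin K, ∃ s : ℤ, ∃ c, Good A B (s, (e k).1) c := by
      intro k
      obtain ⟨a, ha, hak⟩ := Finset.mem_image.1 (e k).2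
      exact drop' hB (x := a.1) (j := (e k).1) (by rw [← hak]; exact ha)
    choose s hs using hex
    refine ⟨fun k => (s k, (e k).1), ?_, hs⟩
    intro k k' hkk
    simp only [Prod.mk.injEq] at hkk
    exact e.injective (Subtype.ext hkk.2)

/-- The pairs of components left after deleting the origin. -/
def IsPair (N : ℕ) (p : Finset (ℤ × ℤ) × Finset (ℤ × ℤ)) : Prop :=
  CC p.1 ∧ CC p.2 ∧ Sep p.1 p.2 ∧ (0 : ℤ × ℤ) ∉ p.1 ∧ (0 : ℤ × ℤ) ∉ p.2 ∧
    (∃ x ∈ p.1, cellGraph.Adj 0 x) ∧ (∃ y ∈ p.2, cellGraph.Adj 0 y) ∧ p.1.card + p.2.card = N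

theorem IsPair.insert_mem {N : ℕ} {p : Finset (ℤ × ℤ) × Finset (ℤ × ℤ)} (h : IsPair N p) :
    insert 0 (p.1 ∪ p.2) ∈ rooted (N + 1) := by
  classical
  obtain ⟨h1, h2, h3, h4, h5, ⟨x, hx, hx'⟩, ⟨y, hy, hy'⟩, h8⟩ := h
  rw [mem_rooted]
  refine ⟨?_, Finset.mem_insert_self _ _, ?_⟩
  · rw [Finset.card_insert_of_notMem, Finset.card_union_of_disjoint h3.disjoint, h8]
    rw [Finset.mem_union]; tauto
  · have hc1 : CC ({0} ∪ p.1) := cc_union (cc_singleton 0) h1 ⟨0, by simp, x, hx, hx'⟩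
    have hc2 : CC (({0} ∪ p.1) ∪ p.2) := cc_union hc1 h2 ⟨0, by simp, y, hy, hy'⟩
    have : insert 0 (p.1 ∪ p.2) = ({0} ∪ p.1) ∪ p.2 := by
      rw [Finset.union_assoc]; rfl
    rw [this]; exact hc2

open Classical in
/-- All pairs with `N` cells in total. -/
noncomputable def allPairs (N : ℕ) : Finset (Finset (ℤ × ℤ) × Finset (ℤ × ℤ)) :=
  ((box (N + 1)).powerset ×ˢ (box (N + 1)).powerset).filter (IsPair N)

theorem mem_allPairs {N : ℕ} {p : Finset (ℤ × ℤ) × Finset (ℤ × ℤ)} :
    p ∈ allPairs N ↔ IsPair N p := by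
  classical
  unfold allPairs
  rw [Finset.mem_filter, Finset.mem_product, Finset.mem_powerset, Finset.mem_powerset]
  constructor
  · exact fun h => h.2
  · intro h
    have h1 := mem_rooted.1 h.insert_mem
    have h2 := subset_box h1.2.2 h1.2.1
    rw [h1.1] at h2
    refine ⟨⟨?_, ?_⟩, h⟩
    · intro x hx; exact h2 (Finset.mem_insert_of_mem (Finset.mem_union_left _ hx))
    · intro x hx; exact h2 (Finset.mem_insert_of_mem (Finset.mem_union_right _ hx))

theorem allPairs_card_le (N : ℕ) : (allPairs N).card ≤ 2 * (rooted (N + 1)).card := by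
  classical
  have h1 := Finset.card_le_mul_card_image (f := fun p : Finset (ℤ × ℤ) × Finset (ℤ × ℤ) =>
    insert 0 (p.1 ∪ p.2)) (allPairs N) 2 (by
      intro S hS
      obtain ⟨p, hp, rfl⟩ := Finset.mem_image.1 hS
      have hp' := mem_allPairs.1 hp
      refine (Finset.card_le_card (t := {p, p.swap}) ?_).trans Finset.card_le_two
      intro q hq
      rw [Finset.mem_filter] at hq
      have hq' := mem_allPairs.1 hq.1
      have hun : p.1 ∪ p.2 = q.1 ∪ q.2 := by
        have hp0 : (0 : ℤ × ℤ) ∉ p.1 ∪ p.2 := by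
          rw [Finset.mem_union]; rintro (h | h)
          · exact hp'.2.2.2.1 h
          · exact hp'.2.2.2.2.1 h
        have hq0 : (0 : ℤ × ℤ) ∉ q.1 ∪ q.2 := by
          rw [Finset.mem_union]; rintro (h | h)
          · exact hq'.2.2.2.1 h
          · exact hq'.2.2.2.2.1 h
        rw [← Finset.erase_insert hp0, ← Finset.erase_insert hq0, hq.2]
      rw [Finset.mem_insert, Finset.mem_singleton]
      rcases comp_unique hp'.2.2.1 hq'.2.2.1 hp'.1 hq'.1 hq'.2.1 hun with h | h
      · left; exact Prod.ext h.1 h.2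
      · right; exact Prod.ext h.1 h.2)
  refine h1.trans (Nat.mul_le_mul_left 2 (Finset.card_le_card ?_))
  intro S hS
  obtain ⟨p, hp, rfl⟩ := Finset.mem_image.1 hS
  exact (mem_allPairs.1 hp).insert_mem

theorem glue_count {K m n : ℕ} (hK : K ^ 2 ≤ m) :
    K * (fixedSet m).card * (fixedSet n).card ≤
      ((allPairs (m + n)).filter (fun p => p.1.card = m)).card := by
  classical
  have hex : ∀ A ∈ fixedSet m, ∀ B ∈ fixedSet n, ∃ v : Fin K → ℤ × ℤ, ∃ c : Fin K → ℤ × ℤ,
      Function.Injective v ∧ ∀ k, Good A B (v k) (c k) := by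
    intro A hA B hB
    obtain ⟨v, hv, hc⟩ := many_positions (A := A) (B := B) (mem_fixedSet.1 hB).2.2.1 (K := K)
      (by rw [(mem_fixedSet.1 hA).1]; exact hK)
    choose c hc using hc
    exact ⟨v, c, hv, hc⟩
  choose! v c hv hc using hex
  have hcard : ((fixedSet m ×ˢ fixedSet n) ×ˢ (Finset.univ : Finset (Fin K))).card =
      K * (fixedSet m).card * (fixedSet n).card := by
    rw [Finset.card_product, Finset.card_product, Finset.card_univ, Fintype.card_fin]; ring
  rw [← hcard]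
  apply Finset.card_le_card_of_injOn
    (fun q => (tr (-c q.1.1 q.1.2 q.2) q.1.1, tr (v q.1.1 q.1.2 q.2 - c q.1.1 q.1.2 q.2) q.1.2))
  · rintro ⟨⟨A, B⟩, k⟩ hq
    simp only [Finset.coe_product, Set.mem_prod, Finset.mem_coe] at hq
    obtain ⟨⟨hA, hB⟩, _⟩ := hq
    have hg := hc A hA B hB k
    obtain ⟨g1, g2, g3, ⟨a, ha, ha'⟩, ⟨b, hb, hb'⟩⟩ := hg
    have hA' := mem_fixedSet.1 hA
    have hB' := mem_fixedSet.1 hB
    have htr : tr (v A B k - c A B k) B = tr (-c A B k) (tr (v A B k) B) := by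
      rw [tr_tr, sub_eq_add_neg]
    simp only [Finset.coe_filter, Set.mem_ofPred_eq]
    refine ⟨mem_allPairs.2 ⟨cc_tr hA'.2.1, cc_tr hB'.2.1, ?_, ?_, ?_, ?_, ?_, ?_⟩, ?_⟩
    · simp only [htr]
      intro x hx y hy
      rw [mem_tr] at hx hy
      have := g1 _ hx _ hy
      rw [adj_sub] at this
      exact ⟨fun hxy => this.1 (by rw [hxy]), this.2⟩
    · rw [mem_tr]; simpa using g2
    · simp only [htr]; rw [mem_tr]; simpa using g3
    · refine ⟨a - c A B k, by rw [mem_tr]; simpa using ha, ?_⟩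
      rw [← adj_add (v := c A B k)]; simpa using ha'
    · refine ⟨b - c A B k, ?_, ?_⟩
      · simp only [htr]; rw [mem_tr]; simpa using hb
      · rw [← adj_add (v := c A B k)]; simpa using hb'
    · simp only [card_tr]; rw [hA'.1, hB'.1]
    · simp only [card_tr]; exact hA'.1
  · rintro ⟨⟨A, B⟩, k⟩ hq ⟨⟨A', B'⟩, k'⟩ hq' h
    simp only [Finset.coe_product, Set.mem_prod, Finset.mem_coe] at hq hq'
    obtain ⟨⟨hA, hB⟩, _⟩ := hq
    obtain ⟨⟨hA', hB'⟩, _⟩ := hq'
    simp only [Prod.mk.injEq] at h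
    obtain ⟨h1, h2⟩ := h
    -- A' is a translate of A
    have e1 : A' = tr (c A' B' k' - c A B k) A := by
      have := congrArg (tr (c A' B' k')) h1
      rw [tr_tr, tr_tr, neg_add_cancel, tr_zero] at this
      refine this.symm.trans ?_
      congr 1
      rw [neg_add_eq_sub]
    have e2 := norm_unique (mem_fixedSet.1 hA).2.2 (by rw [← e1]; exact (mem_fixedSet.1 hA').2.2)
    have hAA : A' = A := by rw [e1, e2, tr_zero]
    have hcc : c A' B' k' = c A B k := sub_eq_zero.1 e2
    rw [hcc] at h2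
    have e3 : B' = tr (v A B k - v A' B' k') B := by
      have := congrArg (tr (-(v A' B' k' - c A B k))) h2
      rw [tr_tr, tr_tr, add_neg_cancel, tr_zero] at this
      refine this.symm.trans ?_
      congr 1
      abel
    have e4 := norm_unique (mem_fixedSet.1 hB).2.2 (by rw [← e3]; exact (mem_fixedSet.1 hB').2.2)
    have hBB : B' = B := by rw [e3, e4, tr_zero]
    subst hAA hBB
    have hkk : k = k' := hv A' hA' B' hB' (sub_eq_zero.1 e4)
    subst hkk
    rfl

/-- The gluing inequality. -/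
theorem glue_ineq (K N : ℕ) :
    ∑ m ∈ Finset.range (N + 1), (if K ^ 2 ≤ m then K * fixedCount m * fixedCount (N - m) else 0) ≤
      2 * ((N + 1) * fixedCount (N + 1)) := by
  classical
  have h1 : (allPairs N).card = ∑ m ∈ Finset.range (N + 1),
      ((allPairs N).filter (fun p => p.1.card = m)).card := by
    apply Finset.card_eq_sum_card_fiberwise
    intro p hp
    have := mem_allPairs.1 hp
    have h8 := this.2.2.2.2.2.2.2
    simp only [Finset.coe_range, Set.mem_Iio]
    omega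
  have h2 : ∑ m ∈ Finset.range (N + 1),
      (if K ^ 2 ≤ m then K * fixedCount m * fixedCount (N - m) else 0) ≤ (allPairs N).card := by
    rw [h1]
    apply Finset.sum_le_sum
    intro m hm
    rw [Finset.mem_range] at hm
    split_ifs with hKm
    · rw [fixedCount_eq, fixedCount_eq]
      have := glue_count (K := K) (m := m) (n := N - m) hKm
      rwa [show m + (N - m) = N by omega] at this
    · exact Nat.zero_le _
  refine h2.trans ((allPairs_card_le N).trans ?_)
  refine Nat.mul_le_mul_left 2 ?_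
  rw [fixedCount_eq]
  exact rooted_card_le (N + 1)

theorem fixedCount_pos {n : ℕ} (hn : 1 ≤ n) : 1 ≤ fixedCount n := by
  classical
  rw [fixedCount_eq]
  apply Finset.card_pos.2
  have key : ∀ k : ℕ, CC ((Finset.range (k + 1)).image (fun i : ℕ => ((i : ℤ), (0 : ℤ)))) := by
    intro k
    induction k with
    | zero => simpa using cc_singleton _
    | succ k ih =>
      rw [Finset.range_add_one, Finset.image_insert, Finset.insert_eq, Finset.union_comm]
      apply cc_union ih (cc_singleton _)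
      refine ⟨((k : ℤ), 0), ?_, (((k + 1 : ℕ) : ℤ), 0), by simp, ?_⟩
      · rw [Finset.mem_image]; exact ⟨k, by simp, rfl⟩
      · rw [cellGraph_adj]; simp
  obtain ⟨k, rfl⟩ : ∃ k, n = k + 1 := ⟨n - 1, by omega⟩
  refine ⟨_, mem_fixedSet.2 ⟨?_, key k, ?_, ?_⟩⟩
  · rw [Finset.card_image_of_injective, Finset.card_range]
    intro i j hij
    simpa using hij
  · rw [Finset.mem_image]; exact ⟨0, by simp, rfl⟩
  · intro p hp
    obtain ⟨i, _, rfl⟩ := Finset.mem_image.1 hp
    right; simp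

end Pool.Agent.H238R2
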