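import Mathlib

/-!
Elementary facts on rational power series with nonnegative coefficients: growth of the
coefficients, evaluation inside the disc of convergence, and the dominant positive pole.
-/

namespace Pool.Agent.H238R2

open Polynomial PowerSeries

/-- The coefficients are `O(r^{-n})`. -/
def Bd {𝕜 : Type*} [NormedField 𝕜] (r : ℝ) (A : PowerSeries 𝕜) : Prop :=
  ∃ C : ℝ, ∀ n, ‖PowerSeries.coeff n A‖ * r ^ n ≤ C

theorem bd_poly {r : ℝ} (p : Polynomial ℂ) : Bd r (p : PowerSeries ℂ) := by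
  classical
  obtain ⟨C, hC⟩ := ((Finset.range (p.natDegree + 1)).image
    (fun n => ‖p.coeff n‖ * r ^ n)).exists_le
  refine ⟨max C 0, fun n => ?_⟩
  rw [Polynomial.coeff_coe]
  by_cases h : n < p.natDegree + 1
  · exact le_max_of_le_left (hC _ (Finset.mem_image_of_mem _ (Finset.mem_range.2 h)))
  · rw [Polynomial.coeff_eq_zero_of_natDegree_lt (by omega)]
    simp

theorem bd_div {r : ℝ} (hr : 0 < r) {ζ : ℂ} (hζ : r < ‖ζ‖) {A B : PowerSeries ℂ}
    (h : ((Polynomial.X - Polynomial.C ζ : Polynomial ℂ) : PowerSeries ℂ) * B = A) (hA : Bd r A) :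
    Bd r B := by
  obtain ⟨C, hC⟩ := hA
  have hζ0 : 0 < ‖ζ‖ := hr.trans hζ
  have hC0 : 0 ≤ C := le_trans (by positivity) (hC 0)
  have h0 : ζ * PowerSeries.coeff 0 B = - PowerSeries.coeff 0 A := by
    rw [← h]
    simp [sub_mul]
  have hs : ∀ n, ζ * PowerSeries.coeff (n + 1) B =
      PowerSeries.coeff n B - PowerSeries.coeff (n + 1) A := by
    intro n
    rw [← h]
    simp [sub_mul, PowerSeries.coeff_succ_X_mul, PowerSeries.coeff_C_mul]
  refine ⟨C / (‖ζ‖ - r), fun n => ?_⟩
  have hd : 0 < ‖ζ‖ - r := by linarith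
  induction n with
  | zero =>
    have := congrArg norm h0
    rw [norm_mul, norm_neg] at this
    have h1 := hC 0
    simp only [pow_zero, mul_one] at h1 ⊢
    rw [le_div_iff₀ hd]
    have hn := norm_nonneg (PowerSeries.coeff 0 B)
    nlinarith
  | succ n ih =>
    have := congrArg norm (hs n)
    rw [norm_mul] at this
    have h2 := norm_sub_le (PowerSeries.coeff n B) (PowerSeries.coeff (n + 1) A)
    have h3 := hC (n + 1)
    have hrn : 0 < r ^ n := by positivity
    have h4 : ‖ζ‖ * (‖PowerSeries.coeff (n + 1) B‖ * r ^ (n + 1)) ≤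
        r * (C / (‖ζ‖ - r)) + C := by
      calc ‖ζ‖ * (‖PowerSeries.coeff (n + 1) B‖ * r ^ (n + 1))
          = (‖ζ‖ * ‖PowerSeries.coeff (n + 1) B‖) * r ^ (n + 1) := by ring
        _ = ‖PowerSeries.coeff n B - PowerSeries.coeff (n + 1) A‖ * r ^ (n + 1) := by rw [this]
        _ ≤ (‖PowerSeries.coeff n B‖ + ‖PowerSeries.coeff (n + 1) A‖) * r ^ (n + 1) := by
            apply mul_le_mul_of_nonneg_right h2 (by positivity)
        _ = r * (‖PowerSeries.coeff n B‖ * r ^ n) + ‖PowerSeries.coeff (n + 1) A‖ * r ^ (n + 1) := by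
            ring
        _ ≤ _ := add_le_add (mul_le_mul_of_nonneg_left ih hr.le) h3
    have h5 : r * (C / (‖ζ‖ - r)) + C = ‖ζ‖ * (C / (‖ζ‖ - r)) := by
      field_simp; ring
    rw [h5] at h4
    exact le_of_mul_le_mul_left h4 hζ0

theorem bd_div_multiset {r : ℝ} (hr : 0 < r) (s : Multiset ℂ) :
    ∀ {A B : PowerSeries ℂ}, (∀ ζ ∈ s, r < ‖ζ‖) →
      (((s.map (fun a => (Polynomial.X - Polynomial.C a : Polynomial ℂ))).prod : Polynomial ℂ) :
        PowerSeries ℂ) * B = A → Bd r A → Bd r B := by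
  induction s using Multiset.induction_on with
  | empty =>
    intro A B _ h hA
    simp at h
    rw [h]; exact hA
  | cons a s ih =>
    intro A B hs h hA
    rw [Multiset.map_cons, Multiset.prod_cons, Polynomial.coe_mul, mul_assoc] at h
    have h1 := bd_div hr (hs a (Multiset.mem_cons_self a s)) h hA
    exact ih (fun ζ hζ => hs ζ (Multiset.mem_cons_of_mem hζ)) rfl h1

/-- If `Q T = P` with all complex roots of `Q` of modulus greater than `r`, the coefficients of `T`
are `O(r^{-n})`. -/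
theorem bd_of_rational {r : ℝ} (hr : 0 < r) {P Q : Polynomial ℂ} {T : PowerSeries ℂ} (hQ : Q ≠ 0)
    (h : (Q : PowerSeries ℂ) * T = P) (hroots : ∀ ζ, Q.eval ζ = 0 → r < ‖ζ‖) : Bd r T := by
  have hsp := (IsAlgClosed.splits Q).eq_prod_roots
  have hlc : Q.leadingCoeff ≠ 0 := Polynomial.leadingCoeff_ne_zero.2 hQ
  rw [hsp, Polynomial.coe_mul, mul_assoc, Polynomial.coe_C] at h
  have h' : (((Q.roots.map (fun a => (Polynomial.X - Polynomial.C a : Polynomial ℂ))).prod :
      Polynomial ℂ) : PowerSeries ℂ) * T =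
        ((Polynomial.C Q.leadingCoeff⁻¹ * P : Polynomial ℂ) : PowerSeries ℂ) := by
    rw [Polynomial.coe_mul, ← h, Polynomial.coe_C, ← mul_assoc, ← map_mul,
      inv_mul_cancel₀ hlc, map_one, one_mul]
  refine bd_div_multiset hr Q.roots ?_ h' (bd_poly _)
  intro ζ hζ
  exact hroots ζ ((Polynomial.mem_roots hQ).1 hζ)

/-- Cauchy product evaluated at a point. -/
theorem eval_mul {𝕜 : Type*} [NormedField 𝕜] [CompleteSpace 𝕜] {A B : PowerSeries 𝕜} {z : 𝕜}
    (hA : Summable (fun n => ‖PowerSeries.coeff n A * z ^ n‖))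
    (hB : Summable (fun n => ‖PowerSeries.coeff n B * z ^ n‖)) :
    (∑' n, PowerSeries.coeff n A * z ^ n) * (∑' n, PowerSeries.coeff n B * z ^ n) =
      ∑' n, PowerSeries.coeff n (A * B) * z ^ n := by
  rw [tsum_mul_tsum_eq_tsum_sum_antidiagonal_of_summable_norm hA hB]
  apply tsum_congr
  intro n
  rw [PowerSeries.coeff_mul, Finset.sum_mul]
  apply Finset.sum_congr rfl
  rintro ⟨i, j⟩ hij
  rw [Finset.HasAntidiagonal.mem_antidiagonal] at hij
  simp only at hij ⊢
  rw [← hij, pow_add]; ring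

theorem summable_poly {𝕜 : Type*} [NormedField 𝕜] (p : Polynomial 𝕜) (z : 𝕜) :
    Summable (fun n => ‖PowerSeries.coeff n (p : PowerSeries 𝕜) * z ^ n‖) := by
  apply summable_of_ne_finset_zero (s := Finset.range (p.natDegree + 1))
  intro n hn
  rw [Finset.mem_range] at hn
  rw [Polynomial.coeff_coe, Polynomial.coeff_eq_zero_of_natDegree_lt (by omega)]
  simp

theorem tsum_poly {𝕜 : Type*} [NormedField 𝕜] (p : Polynomial 𝕜) (z : 𝕜) :
    ∑' n, PowerSeries.coeff n (p : PowerSeries 𝕜) * z ^ n = p.eval z := by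
  rw [tsum_eq_sum (s := Finset.range (p.natDegree + 1)), Polynomial.eval_eq_sum_range]
  · apply Finset.sum_congr rfl
    intro n _
    rw [Polynomial.coeff_coe]
  · intro n hn
    rw [Finset.mem_range] at hn
    rw [Polynomial.coeff_coe, Polynomial.coeff_eq_zero_of_natDegree_lt (by omega)]
    simp

/-- From a bound `O(r^{-n})` to summability at `|z| < r`, also for the derivative. -/
theorem summable_of_bd {𝕜 : Type*} [NormedField 𝕜] {r : ℝ} {T : PowerSeries 𝕜}
    (hT : Bd r T) {z : 𝕜} (hz : ‖z‖ < r) :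
    Summable (fun n => ‖PowerSeries.coeff n T * z ^ n‖) := by
  obtain ⟨C, hC⟩ := hT
  have hr : 0 < r := (norm_nonneg z).trans_lt hz
  have hq : ‖z‖ / r < 1 := (div_lt_one hr).2 hz
  have hsum : Summable (fun n : ℕ => C * (‖z‖ / r) ^ n) :=
    (summable_geometric_of_lt_one (by positivity) hq).mul_left C
  refine Summable.of_nonneg_of_le (fun n => norm_nonneg _) (fun n => ?_) hsum
  rw [norm_mul, norm_pow, div_pow]
  have h1 := hC n
  have hrn : 0 < r ^ n := by positivity
  calc ‖PowerSeries.coeff n T‖ * ‖z‖ ^ n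
      = (‖PowerSeries.coeff n T‖ * r ^ n) * (‖z‖ ^ n / r ^ n) := by
        field_simp
    _ ≤ C * (‖z‖ ^ n / r ^ n) := mul_le_mul_of_nonneg_right h1 (by positivity)

end Pool.Agent.H238R2
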